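import Pool.Agent.H92.OD.Targets

/-!
# BLR: orders of the solutions of a differential equation over `k[u]`
-/

set_option autoImplicit false

namespace Pool.Agent.H77.OD

open MvPolynomial Filter Pool.Agent.H92.OD

theorem pf_BLR (h1 : T_BLF) (h2 : T_TAY) : T_BLR := by
  intro k _ _ R hR
  obtain ⟨s, c, -, -, -, -, ⟨m, -, hne⟩, hA⟩ := h2 k R hR
  obtain ⟨A, hc, hev⟩ := hA 0
  have hA0 : A ≠ 0 := by
    intro h0
    apply hne 0
    rw [← hc m, h0, coeff_zero]
  have hw : ∀ m : Fin 2 →₀ ℕ, ∃ r : ℚ, m ∈ A.support → IsO (coeff m A) r := by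
    intro m
    by_cases hm : m ∈ A.support
    · obtain ⟨r, hr⟩ := exists_IsO (mem_support_iff.1 hm)
      exact ⟨r, fun _ => hr⟩
    · exact ⟨0, fun h => absurd h hm⟩
  choose w hw using hw
  obtain ⟨F, hF⟩ := h1 k A.support w (fun m => cf (coeff m A) (w m)) (support_nonempty.2 hA0)
    (fun m hm => (hw m hm).1)
  refine ⟨F, fun g ρ hg hR' => hF A g ρ rfl (fun m hm => ⟨hw m hm, rfl⟩) hg ?_⟩
  rw [hev g, zero_add, hR']

end Pool.Agent.H77.OD
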