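import Pool.Agent.H92.OD.Targets

/-!
# THE: an element of order zero whose constant term is transcendental
-/

set_option autoImplicit false

namespace Pool.Agent.H77.OD

open MvPolynomial Filter Pool.Agent.H92.OD

theorem IsO_pow {k : Type} [Field k] {x : HS k} {r : ℚ} (hx : IsO x r) (n : ℕ) :
    IsO (x ^ n) (n * r) ∧ cf (x ^ n) (n * r) = (cf x r) ^ n := by
  induction n with
  | zero =>
    have h : cf (1 : HS k) 0 = 1 := by
      rw [← sg_zero_one, cf_sg, if_pos rfl]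
    refine ⟨⟨?_, ?_⟩, ?_⟩
    · rw [pow_zero, Nat.cast_zero, zero_mul, h]
      exact one_ne_zero
    · rw [pow_zero, Nat.cast_zero, zero_mul]
      exact geO_one
    · rw [pow_zero, Nat.cast_zero, zero_mul, h, pow_zero]
  | succ n ih =>
    have e : ((n + 1 : ℕ) : ℚ) * r = n * r + r := by push_cast; ring
    rw [e, pow_succ, pow_succ]
    refine ⟨ih.1.mul hx, ?_⟩
    rw [(cf_mul_low ih.1.2 hx.2).2, ih.2]

theorem sg_mem {k : Type} [Field k] [CharZero k] (𝒰 : Ultrafilter ℕ) (y : ℕ → HS k) (z : ℤ) :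
    (gm (fun _ => sg (z : ℚ) (1 : k)) : Gm 𝒰 (HS k)) ∈ EE DG (ug 𝒰 k) (gm y) := by
  have hu : ug 𝒰 k ∈ EE (k := k) DG (ug 𝒰 k) (gm y) :=
    IntermediateField.subset_adjoin k _ (Set.mem_insert _ _)
  have hn : ∀ n : ℕ, (gm (fun _ => sg (n : ℚ) (1 : k)) : Gm 𝒰 (HS k)) = ug 𝒰 k ^ n := by
    intro n
    have h1 : (ug 𝒰 k) ^ n = gm ((fun _ : ℕ => uu k) ^ n) :=
      (map_pow (gmH (𝒰 := 𝒰) (A := HS k)) (fun _ => uu k) n).symm
    rw [h1]
    refine gm_eq_iff.2 (Eventually.of_forall fun j => ?_)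
    rw [Pi.pow_apply, uu_pow]
  rcases Int.eq_nat_or_neg z with ⟨n, rfl | rfl⟩
  · rw [Int.cast_natCast, hn]
    exact pow_mem hu n
  · have h2 : (gm (fun _ => sg (((-(n : ℤ)) : ℤ) : ℚ) (1 : k)) : Gm 𝒰 (HS k)) =
        (ug 𝒰 k ^ n)⁻¹ := by
      refine eq_inv_of_mul_eq_one_left ?_
      rw [← hn, ← gm_mul, ← gm_one]
      refine gm_eq_iff.2 (Eventually.of_forall fun j => ?_)
      show sg (((-(n : ℤ)) : ℤ) : ℚ) (1 : k) * sg (n : ℚ) (1 : k) = 1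
      rw [sg_mul_sg, one_mul, ← sg_zero_one]
      push_cast
      rw [neg_add_cancel]
    rw [h2]
    exact inv_mem (pow_mem hu n)

open scoped Classical in
theorem pf_THE (h1 : T_STD) (h2 : T_RKC) : T_THE := by
  intro k _ _ _ 𝒰 y s Q hS
  obtain ⟨g, hgE, hg0, hgr⟩ := h2 k 𝒰 y s Q hS
  obtain ⟨r, hr⟩ := h1 k 𝒰 y s Q hS g hgE hg0
  obtain ⟨f, rfl⟩ := exists_gm g
  have hf := StO_gm.1 hr
  obtain ⟨q, hq⟩ : ∃ q, q = r.den := ⟨_, rfl⟩
  have hq0 : 0 < q := by rw [hq]; exact r.den_pos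
  have hqr : (q : ℚ) * r = r.num := by
    rw [hq, mul_comm]
    exact Rat.mul_den_eq_num r
  obtain ⟨z, hz⟩ : ∃ z : ℤ, z = -r.num := ⟨_, rfl⟩
  have hzr : (q : ℚ) * r + (z : ℚ) = 0 := by
    rw [hqr, hz]
    push_cast
    ring
  obtain ⟨θ, hθ⟩ : ∃ θ : ℕ → HS k, θ = fun j => f j ^ q * sg (z : ℚ) 1 := ⟨_, rfl⟩
  have hsg : IsO (sg (z : ℚ) (1 : k)) (z : ℚ) := by
    refine ⟨?_, geO_sg _ _⟩
    rw [cf_sg, if_pos rfl]
    exact one_ne_zero
  have hO : ∀ j, IsO (f j) r → IsO (θ j) 0 ∧ cf (θ j) 0 = (cf (f j) r) ^ q := by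
    intro j hj
    have h3 := IsO_pow hj q
    rw [hθ, ← hzr]
    refine ⟨h3.1.mul hsg, ?_⟩
    show cf (f j ^ q * sg (z : ℚ) 1) ((q : ℚ) * r + (z : ℚ)) = _
    rw [(cf_mul_low h3.1.2 hsg.2).2, h3.2, cf_sg, if_pos rfl, mul_one]
  refine ⟨θ, ?_, hf.mono fun j hj => (hO j hj).1, ?_⟩
  · have h3 : (gm θ : Gm 𝒰 (HS k)) = (gm f) ^ q * gm (fun _ => sg (z : ℚ) (1 : k)) := by
      have h4 : (gm f : Gm 𝒰 (HS k)) ^ q = gm (f ^ q) :=
        (map_pow (gmH (𝒰 := 𝒰) (A := HS k)) f q).symm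
      rw [h4, ← gm_mul, hθ]
      rfl
    rw [h3]
    exact mul_mem (pow_mem hgE q) (sg_mem 𝒰 y z)
  · intro P hP
    rw [Ultrafilter.eventually_not]
    intro h0
    have hG : Polynomial.expand k q P ≠ 0 := (Polynomial.expand_ne_zero hq0).2 hP
    have h3 : ∀ᶠ j in (𝒰 : Filter ℕ), ∃ c ∈ ((Polynomial.expand k q P).roots.toFinset : Set k),
        cf (f j) r = c := by
      filter_upwards [h0, hf] with j hj1 hj2
      refine ⟨cf (f j) r, ?_, rfl⟩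
      rw [Finset.mem_coe, Multiset.mem_toFinset, Polynomial.mem_roots hG, Polynomial.IsRoot.def,
        Polynomial.expand_eval, ← (hO j hj2).2]
      exact hj1
    obtain ⟨c, -, hc⟩ := (Ultrafilter.eventually_exists_mem_iff
      (Finset.finite_toSet _)).1 h3
    exact hgr r c (StL_gm.2 (hf.and hc))

end Pool.Agent.H77.OD
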